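import Mathlib

set_option autoImplicit false

open Filter Topology Set

namespace Pool.Agent.H.MP_9b0ce4_an

variable {X : Type} [NormedAddCommGroup X] [NormedSpace ℝ X]

theorem walk (A B : X →L[ℝ] X) (hA : ‖A‖ ≤ 1) (hB : ‖B‖ ≤ 1) (hAB : A * B = B * A) (n : ℕ) :
    ∀ c : ℝ, ‖c • ((1 / 2 : ℝ) • (A + B)) ^ (n + 1) +
      ((n : ℝ) + 1) • ((1 / 2 : ℝ) • (A - B) * ((1 / 2 : ℝ) • (A + B)) ^ n)‖ ^ 2 ≤ c ^ 2 + n + 1 := by
  set M := (1 / 2 : ℝ) • (A + B) with hM
  set D := (1 / 2 : ℝ) • (A - B) with hD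
  have hA' : A = M + D := by rw [hM, hD, ← smul_add]; module
  have hB' : B = M - D := by rw [hM, hD, ← smul_sub]; module
  have hMD : M * D = D * M := by
    simp only [hM, hD, smul_mul_assoc, mul_smul_comm, mul_sub, sub_mul, add_mul, mul_add, hAB]
    module
  have step : ∀ (P Q : X →L[ℝ] X) (a b s : ℝ), ‖P‖ ^ 2 ≤ a → ‖Q‖ ^ 2 ≤ b → a + b ≤ 2 * s →
      ‖(1 / 2 : ℝ) • (A * P + B * Q)‖ ^ 2 ≤ s := by
    intro P Q a b s hP hQ hs
    have h1 : ‖A * P‖ ≤ ‖P‖ := (norm_mul_le _ _).trans (mul_le_of_le_one_left (norm_nonneg _) hA)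
    have h2 : ‖B * Q‖ ≤ ‖Q‖ := (norm_mul_le _ _).trans (mul_le_of_le_one_left (norm_nonneg _) hB)
    have h3 : ‖(1 / 2 : ℝ) • (A * P + B * Q)‖ ≤ (‖P‖ + ‖Q‖) / 2 := by
      rw [norm_smul, Real.norm_of_nonneg (by norm_num)]
      linarith [norm_add_le (A * P) (B * Q)]
    have h4 := pow_le_pow_left₀ (norm_nonneg _) h3 2
    nlinarith [sq_nonneg (‖P‖ - ‖Q‖)]
  induction n with
  | zero =>
    intro c
    have h1 : ∀ t : ℝ, ‖t • (1 : X →L[ℝ] X)‖ ^ 2 ≤ t ^ 2 := fun t => by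
      rw [norm_smul, mul_pow, Real.norm_eq_abs, sq_abs]
      refine mul_le_of_le_one_right (sq_nonneg _) (pow_le_one₀ (norm_nonneg _) ?_)
      exact ContinuousLinearMap.norm_id_le
    have := step _ _ _ _ (c ^ 2 + 1) (h1 (c + 1)) (h1 (c - 1)) (by nlinarith)
    convert this using 3
    · simp only [hM, hD, mul_smul_comm, mul_one, pow_zero, zero_add, pow_one, Nat.cast_zero]
      module
    · simp
  | succ n ih =>
    intro c
    have := step _ _ _ _ (c ^ 2 + (n + 1 : ℕ) + 1) (ih (c + 1)) (ih (c - 1)) (by push_cast; nlinarith)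
    convert this using 3
    have e1 : M * (D * M ^ n) = D * M ^ (n + 1) := by rw [← mul_assoc, hMD, mul_assoc, pow_succ']
    clear_value M D
    rw [hA', hB']
    simp only [mul_add, add_mul, sub_mul, mul_smul_comm, e1, ← pow_succ']
    push_cast
    module

theorem eq_of_mem_closure (𝒜 : Set (X →L[ℝ] X)) (h1 : ∀ A ∈ 𝒜, ‖A‖ ≤ 1)
    (h2 : ∀ A ∈ 𝒜, ∀ B ∈ 𝒜, A * B = B * A) (x y z : X) (hz : z = (1 / 2 : ℝ) • (x + y))
    (hx : x ∈ closure ((fun A : X →L[ℝ] X => A z) '' 𝒜))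
    (hy : y ∈ closure ((fun A : X →L[ℝ] X => A z) '' 𝒜)) : x = y := by
  have key : ∀ n : ℕ, ‖x - y‖ / 2 ≤ ‖z‖ / Real.sqrt (n + 1) := by
    intro n
    refine le_of_forall_pos_le_add fun ε hε => ?_
    have hη : 0 < ε / (n + 1) := by positivity
    obtain ⟨_, ⟨A, hA, rfl⟩, hAx⟩ := Metric.mem_closure_iff.1 hx _ hη
    obtain ⟨_, ⟨B, hB, rfl⟩, hBy⟩ := Metric.mem_closure_iff.1 hy _ hη
    rw [dist_eq_norm] at hAx hBy
    have hw := walk A B (h1 A hA) (h1 B hB) (h2 A hA B hB) n 0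
    set M := (1 / 2 : ℝ) • (A + B) with hM
    set D := (1 / 2 : ℝ) • (A - B) with hD
    have hM1 : ‖M‖ ≤ 1 := by
      rw [hM, norm_smul, Real.norm_of_nonneg (by norm_num)]
      linarith [norm_add_le A B, h1 A hA, h1 B hB]
    have hD1 : ‖D‖ ≤ 1 := by
      rw [hD, norm_smul, Real.norm_of_nonneg (by norm_num)]
      linarith [norm_sub_le A B, h1 A hA, h1 B hB]
    have hMz : ‖z - M z‖ ≤ ε / (n + 1) := by
      have : z - M z = (1 / 2 : ℝ) • ((x - A z) + (y - B z)) := by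
        rw [hM, smul_apply, add_apply]
        nth_rewrite 1 [hz]
        module
      rw [this, norm_smul, Real.norm_of_nonneg (by norm_num)]
      linarith [norm_add_le (x - A z) (y - B z)]
    have hMk : ∀ k : ℕ, ‖z - (M ^ k) z‖ ≤ k * (ε / (n + 1)) := by
      intro k
      induction k with
      | zero => simp
      | succ k ih =>
        have : z - (M ^ (k + 1)) z = (z - M z) + M (z - (M ^ k) z) := by
          rw [pow_succ', mul_apply_eq_comp, map_sub]; abel
        rw [this]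
        have h3 : ‖M (z - (M ^ k) z)‖ ≤ ‖z - (M ^ k) z‖ :=
          (M.le_opNorm _).trans (mul_le_of_le_one_left (norm_nonneg _) hM1)
        have := norm_add_le (z - M z) (M (z - (M ^ k) z))
        rw [Nat.cast_succ]; linarith
    have hs : 0 < Real.sqrt (n + 1) := Real.sqrt_pos.2 (by positivity)
    have hDM : ‖D * M ^ n‖ ≤ 1 / Real.sqrt (n + 1) := by
      rw [zero_smul, zero_add, norm_smul, Real.norm_of_nonneg (by positivity), mul_pow] at hw
      have hss : Real.sqrt (n + 1) ^ 2 = n + 1 := Real.sq_sqrt (by positivity)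
      rw [le_div_iff₀ hs]
      refine (pow_le_one_iff_of_nonneg (by positivity) two_ne_zero).1 ?_
      rw [mul_pow, hss]
      have hn : (0 : ℝ) < n + 1 := by positivity
      refine le_of_mul_le_mul_left ?_ hn
      nlinarith
    have e : (1 / 2 : ℝ) • (x - y) = (1 / 2 : ℝ) • ((x - A z) - (y - B z)) + D (z - (M ^ n) z) +
        (D * M ^ n) z := by
      rw [map_sub, mul_apply_eq_comp, add_assoc, sub_add_cancel, hD, smul_apply, sub_apply]
      module
    have h4 : ‖(1 / 2 : ℝ) • ((x - A z) - (y - B z))‖ ≤ ε / (n + 1) := by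
      rw [norm_smul, Real.norm_of_nonneg (by norm_num)]
      linarith [norm_sub_le (x - A z) (y - B z)]
    have h5 : ‖D (z - (M ^ n) z)‖ ≤ n * (ε / (n + 1)) :=
      ((D.le_opNorm _).trans (mul_le_of_le_one_left (norm_nonneg _) hD1)).trans (hMk n)
    have h6 : ‖(D * M ^ n) z‖ ≤ ‖z‖ / Real.sqrt (n + 1) := by
      refine ((D * M ^ n).le_opNorm _).trans ?_
      rw [div_eq_mul_one_div ‖z‖, mul_comm ‖z‖]
      exact mul_le_mul_of_nonneg_right hDM (norm_nonneg _)
    have h7 := congrArg norm e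
    rw [norm_smul, Real.norm_of_nonneg (by norm_num)] at h7
    have h8 := norm_add₃_le (a := (1 / 2 : ℝ) • ((x - A z) - (y - B z))) (b := D (z - (M ^ n) z))
      (c := (D * M ^ n) z)
    have h9 : ε / (n + 1) + n * (ε / (n + 1)) = ε := by field_simp; ring
    linarith
  have ht : Tendsto (fun n : ℕ => ‖z‖ / Real.sqrt (n + 1)) atTop (𝓝 0) :=
    tendsto_const_nhds.div_atTop (Real.tendsto_sqrt_atTop.comp
      (tendsto_natCast_atTop_atTop.atTop_add tendsto_const_nhds))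
  have := ge_of_tendsto' ht key
  rw [← sub_eq_zero, ← norm_le_zero_iff]
  linarith

/-- Invariant seminorms dominated by the norm. -/
structure Good (T : X ≃ₗᵢ[ℝ] X) (p : X → ℝ) : Prop where
  add : ∀ x y, p (x + y) ≤ p x + p y
  smul : ∀ (r : ℝ) x, p (r • x) = |r| * p x
  le : ∀ x, p x ≤ ‖x‖
  inv : ∀ x, p (T x) = p x

namespace Good
variable {T : X ≃ₗᵢ[ℝ] X} {p : X → ℝ}

theorem nonneg (h : Good T p) (x : X) : 0 ≤ p x := by
  have h1 := h.add x ((-1 : ℝ) • x)
  have h2 := h.smul 0 x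
  rw [h.smul] at h1
  simp only [neg_smul, one_smul, add_neg_cancel, zero_smul, abs_zero, zero_mul, abs_neg,
    abs_one] at h1 h2
  linarith

theorem cont (h : Good T p) : Continuous p := by
  refine (LipschitzWith.of_le_add (f := p) fun x y => ?_).continuous
  have h1 := h.add y (x - y)
  rw [add_sub_cancel] at h1
  rw [dist_eq_norm]
  linarith [h.le (x - y)]

theorem scale (h : Good T p) {x y : X} (he : p x + p y ≤ p (x + y)) {s t : ℝ} (hs : 0 ≤ s)
    (ht : 0 ≤ t) : s * p x + t * p y ≤ p (s • x + t • y) := by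
  have h1 := h.add (s • x + t • y) (t • x + s • y)
  have h2 := h.add (t • x) (s • y)
  have e : s • x + t • y + (t • x + s • y) = (s + t) • (x + y) := by module
  rw [e, h.smul, abs_of_nonneg (by positivity)] at h1
  rw [h.smul, h.smul, abs_of_nonneg hs, abs_of_nonneg ht] at h2
  nlinarith [mul_le_mul_of_nonneg_left he (add_nonneg hs ht)]

theorem max (h : Good T p) {c : ℝ} (hc0 : 0 ≤ c) (hc : c ≤ 1) :
    Good T fun x => max (p x) (c * ‖x‖) where
  add x y := max_le ((h.add x y).trans (add_le_add (le_max_left _ _) (le_max_left _ _)))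
    (((mul_le_mul_of_nonneg_left (norm_add_le x y) hc0).trans_eq (mul_add _ _ _)).trans
      (add_le_add (le_max_right _ _) (le_max_right _ _)))
  smul r x := by
    rw [h.smul, norm_smul, Real.norm_eq_abs, mul_max_of_nonneg _ _ (abs_nonneg r), mul_left_comm]
  le x := max_le (h.le x) (mul_le_of_le_one_left (norm_nonneg _) hc)
  inv x := by rw [h.inv, T.norm_map]

end Good

theorem good_norm (T : X ≃ₗᵢ[ℝ] X) : Good T fun x => ‖x‖ :=
  ⟨norm_add_le, fun r x => by rw [norm_smul, Real.norm_eq_abs], fun _ => le_rfl, T.norm_map⟩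

theorem good_sup (T : X ≃ₗᵢ[ℝ] X) (f : X →L[ℝ] ℝ) (hf : ‖f‖ ≤ 1) :
    ∃ p, Good T p ∧ (∀ x, f x ≤ p x) ∧ ∀ x u, (∀ k : ℤ, |f ((T ^ k) x)| ≤ u) → p x ≤ u := by
  have hb : ∀ (x : X) (k : ℤ), |f ((T ^ k) x)| ≤ ‖x‖ := fun x k => by
    have := f.le_opNorm ((T ^ k) x)
    rw [(T ^ k).norm_map, Real.norm_eq_abs] at this
    exact this.trans (mul_le_of_le_one_left (norm_nonneg _) hf)
  have hbdd : ∀ x, BddAbove (range fun k : ℤ => |f ((T ^ k) x)|) := fun x =>
    ⟨‖x‖, by rintro _ ⟨k, rfl⟩; exact hb x k⟩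
  refine ⟨fun x => ⨆ k : ℤ, |f ((T ^ k) x)|, ⟨fun x y => ciSup_le fun k => ?_, fun r x => ?_,
    fun x => ciSup_le (hb x), fun x => ?_⟩, fun x => ?_, fun x u h => ciSup_le h⟩
  · rw [map_add, map_add]
    exact (abs_add_le _ _).trans (add_le_add (le_ciSup (hbdd x) k) (le_ciSup (hbdd y) k))
  · rw [Real.mul_iSup_of_nonneg (abs_nonneg r)]
    simp only [map_smul, smul_eq_mul, abs_mul]
  · rw [← (Equiv.addRight (1 : ℤ)).iSup_comp (g := fun k : ℤ => |f ((T ^ k) x)|)]
    simp only [Equiv.coe_addRight, zpow_add_one, LinearIsometryEquiv.coe_mul, Function.comp_apply]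
  · exact (le_abs_self _).trans (by simpa using le_ciSup (hbdd x) 0)

theorem mem_hull (T : X ≃ₗᵢ[ℝ] X) : ∃ 𝒜 : Set (X →L[ℝ] X), (∀ A ∈ 𝒜, ‖A‖ ≤ 1) ∧
    (∀ A ∈ 𝒜, ∀ B ∈ 𝒜, A * B = B * A) ∧ ∀ x z : X, (∀ p, Good T p → p x ≤ p z) →
      x ∈ closure ((fun A : X →L[ℝ] X => A z) '' 𝒜) := by
  let U : ℤ → X →L[ℝ] X := fun k => (T ^ k).toLinearIsometry.toContinuousLinearMap
  have hU : ∀ k v, U k v = (T ^ k) v := fun _ _ => rfl
  let S : Set (X →L[ℝ] X) := {A | ∃ (s : ℝ) (k : ℤ), |s| ≤ 1 ∧ A = s • U k}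
  have hcomm : ∀ A : X →L[ℝ] X, Convex ℝ {B | A * B = B * A} := by
    intro A B hB C hC a b _ _ _
    simp only [mem_ofPred_eq] at hB hC ⊢
    rw [mul_add, add_mul, mul_smul_comm, mul_smul_comm, smul_mul_assoc, smul_mul_assoc, hB, hC]
  refine ⟨convexHull ℝ S, fun A hA => ?_, fun A hA B hB => ?_, fun x z h => ?_⟩
  · refine mem_closedBall_zero_iff.1 (convexHull_min ?_ (convex_closedBall _ _) hA)
    rintro _ ⟨s, k, hs, rfl⟩
    rw [mem_closedBall_zero_iff, norm_smul, Real.norm_eq_abs]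
    exact mul_le_one₀ hs (norm_nonneg _) (LinearIsometry.norm_toContinuousLinearMap_le _)
  · refine convexHull_min ?_ (hcomm A) hB
    intro C hC
    refine (convexHull_min ?_ (hcomm C) hA).symm
    obtain ⟨s, k, -, rfl⟩ := hC
    rintro _ ⟨t, j, -, rfl⟩
    have : U k * U j = U j * U k := by
      ext v
      change (T ^ k * T ^ j) v = (T ^ j * T ^ k) v
      rw [← zpow_add, ← zpow_add, add_comm]
    simp only [mem_ofPred_eq, smul_mul_assoc, mul_smul_comm, this]
  · by_contra hx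
    have hconv : Convex ℝ ((fun A : X →L[ℝ] X => A z) '' convexHull ℝ S) :=
      (convex_convexHull ℝ S).linear_image (ContinuousLinearMap.apply ℝ X z : (X →L[ℝ] X) →ₗ[ℝ] X)
    obtain ⟨f, u, h1, h2⟩ := geometric_hahn_banach_closed_point hconv.closure isClosed_closure hx
    have hc : 0 < (‖f‖ + 1)⁻¹ := by positivity
    obtain ⟨p, hp, hp1, hp2⟩ := good_sup T ((‖f‖ + 1)⁻¹ • f) (by
      rw [norm_smul, Real.norm_of_nonneg hc.le, inv_mul_le_iff₀ (by positivity)]; linarith)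
    have h3 := hp2 z ((‖f‖ + 1)⁻¹ * u) fun k => by
      rw [smul_apply, smul_eq_mul, abs_mul, abs_of_pos hc]
      refine mul_le_mul_of_nonneg_left (abs_le.2 ⟨?_, ?_⟩) hc.le
      · have := h1 _ (subset_closure ⟨_, subset_convexHull ℝ S ⟨-1, k, by simp, rfl⟩, rfl⟩)
        simp only [smul_apply, hU, map_smul, smul_eq_mul] at this
        linarith
      · have := h1 _ (subset_closure ⟨_, subset_convexHull ℝ S ⟨1, k, by simp, rfl⟩, rfl⟩)
        simp only [smul_apply, hU, map_smul, smul_eq_mul] at this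
        linarith
    have h4 := hp1 x
    rw [smul_apply, smul_eq_mul] at h4
    have h5 := mul_lt_mul_of_pos_left h2 hc
    linarith [h p hp]

theorem unit_eq (T : X ≃ₗᵢ[ℝ] X) (x y : X) (hx : ‖x‖ = 1) (hy : ‖y‖ = 1)
    (h : ∀ p, Good T p → p x + p y ≤ p (x + y)) : x = y := by
  have aux : ∀ x y : X, ‖x‖ = 1 → ‖y‖ = 1 → (∀ p, Good T p → p x + p y ≤ p (x + y)) →
      ∀ p, Good T p → p y ≤ p x := by
    intro x y hx hy h p hp
    by_contra hlt
    rw [not_le] at hlt
    have h0 := hp.nonneg x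
    have h1 := hp.le y
    have := h _ (hp.max (c := (p x + p y) / 2) (by linarith) (by linarith))
    rw [hx, hy, mul_one, max_eq_right (by linarith), max_eq_left (by linarith)] at this
    have h2 := hp.add x y
    have h3 := norm_add_le x y
    rcases le_max_iff.1 this with h4 | h4
    · linarith
    · nlinarith
  obtain ⟨𝒜, h1, h2, h3⟩ := mem_hull T
  have hz : ∀ p, Good T p → p x ≤ p ((1 / 2 : ℝ) • (x + y)) ∧ p y ≤ p ((1 / 2 : ℝ) • (x + y)) := by
    intro p hp
    have a1 := aux x y hx hy h p hp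
    have a2 := aux y x hy hx (fun q hq => by rw [add_comm, add_comm y]; exact h q hq) p hp
    have a3 := h p hp
    rw [hp.smul, abs_of_pos (by norm_num)]
    constructor <;> linarith
  exact eq_of_mem_closure 𝒜 h1 h2 x y _ rfl (h3 _ _ fun p hp => (hz p hp).1)
    (h3 _ _ fun p hp => (hz p hp).2)

theorem main [TopologicalSpace.SeparableSpace X] (T : X ≃ₗᵢ[ℝ] X) :
    ∃ N : X → ℝ,
      (∀ x y : X, N (x + y) ≤ N x + N y) ∧
      (∀ (r : ℝ) (x : X), N (r • x) = |r| * N x) ∧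
      (∃ c C : ℝ, 0 < c ∧ 0 < C ∧ ∀ x : X, c * ‖x‖ ≤ N x ∧ N x ≤ C * ‖x‖) ∧
      (∀ x : X, N (T x) = N x) ∧
      (∀ x y : X, N x = 1 → N y = 1 → x ≠ y → N (x + y) < 2) := by
  have : SecondCountableTopology X := UniformSpace.secondCountable_of_separable X
  let O : {p // Good T p} → Set (X × X) := fun p => {v | p.1 (v.1 + v.2) < p.1 v.1 + p.1 v.2}
  obtain ⟨t, htc, ht⟩ := TopologicalSpace.isOpen_iUnion_countable O fun p => by
    have := p.2.cont
    exact isOpen_lt (by fun_prop) (by fun_prop)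
  obtain ⟨q, hq⟩ := (htc.insert ⟨_, good_norm T⟩).exists_eq_range (insert_nonempty _ _)
  have hs : ∀ x, Summable fun n : ℕ => (1 / 2 : ℝ) ^ n * (q n).1 x := fun x =>
    Summable.of_nonneg_of_le (fun n => mul_nonneg (by positivity) ((q n).2.nonneg x))
      (fun n => mul_le_mul_of_nonneg_left ((q n).2.le x) (by positivity))
      (summable_geometric_two.mul_right _)
  let N : X → ℝ := fun x => ‖x‖ + ∑' n : ℕ, (1 / 2 : ℝ) ^ n * (q n).1 x
  have hle : ∀ x y (n : ℕ), (1 / 2 : ℝ) ^ n * (q n).1 (x + y) ≤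
      (1 / 2 : ℝ) ^ n * (q n).1 x + (1 / 2 : ℝ) ^ n * (q n).1 y := fun x y n => by
    rw [← mul_add]; exact mul_le_mul_of_nonneg_left ((q n).2.add x y) (by positivity)
  have hsm : ∀ (r : ℝ) (x : X), N (r • x) = |r| * N x := fun r x => by
    simp only [N, (q _).2.smul, norm_smul, Real.norm_eq_abs, mul_add, ← tsum_mul_left]
    congr 2; funext n; ring
  refine ⟨N, fun x y => ?_, hsm, ⟨1, 3, one_pos, by norm_num, fun x => ⟨?_, ?_⟩⟩, fun x => ?_,
    fun x y hx hy hxy => ?_⟩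
  · have := (hs (x + y)).tsum_le_tsum (hle x y) ((hs x).add (hs y))
    rw [(hs x).tsum_add (hs y)] at this
    simp only [N]
    linarith [norm_add_le x y]
  · have : 0 ≤ ∑' n : ℕ, (1 / 2 : ℝ) ^ n * (q n).1 x :=
      tsum_nonneg fun n => mul_nonneg (by positivity) ((q n).2.nonneg x)
    simp only [N]; linarith
  · have := (hs x).tsum_le_tsum (fun n => mul_le_mul_of_nonneg_left ((q n).2.le x) (by positivity))
      (summable_geometric_two.mul_right _)
    rw [tsum_mul_right, tsum_geometric_two] at this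
    simp only [N]; linarith
  · simp only [N, (q _).2.inv, T.norm_map]
  · have hex : ∃ p, Good T p ∧ p (x + y) < p x + p y := by
      by_contra hne
      push Not at hne
      have h0 : ∀ v, N v = 1 → 0 < ‖v‖ := fun v hv => norm_pos_iff.2 fun h => by
        have := hsm 0 v
        rw [zero_smul, ← h, hv] at this
        simp at this
      have hx0 := h0 x hx
      have hy0 := h0 y hy
      have h1 := unit_eq T (‖x‖⁻¹ • x) (‖y‖⁻¹ • y)
        (by rw [norm_smul, norm_inv, norm_norm, inv_mul_cancel₀ hx0.ne'])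
        (by rw [norm_smul, norm_inv, norm_norm, inv_mul_cancel₀ hy0.ne']) fun p hp => by
          rw [hp.smul, hp.smul, abs_of_pos (inv_pos.2 hx0), abs_of_pos (inv_pos.2 hy0)]
          exact hp.scale (hne p hp) (inv_pos.2 hx0).le (inv_pos.2 hy0).le
      have h2 := congrArg N h1
      rw [hsm, hsm, hx, hy, abs_of_pos (inv_pos.2 hx0), abs_of_pos (inv_pos.2 hy0), mul_one,
        mul_one] at h2
      rw [h2] at h1
      exact hxy (smul_right_injective X (inv_pos.2 hy0).ne' h1)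
    obtain ⟨p, hp, hlt⟩ := hex
    have hm : (x, y) ∈ ⋃ i ∈ t, O i := ht ▸ mem_iUnion.2 ⟨⟨p, hp⟩, hlt⟩
    obtain ⟨i, hi, hi'⟩ := mem_iUnion₂.1 hm
    obtain ⟨n, rfl⟩ : i ∈ range q := hq ▸ mem_insert_of_mem _ hi
    have := (hs (x + y)).tsum_lt_tsum (i := n) (hle x y) (by
      rw [← mul_add]; exact mul_lt_mul_of_pos_left hi' (by positivity)) ((hs x).add (hs y))
    rw [(hs x).tsum_add (hs y)] at this
    simp only [N] at hx hy ⊢
    linarith [norm_add_le x y]

end Pool.Agent.H.MP_9b0ce4_an
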